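import Pool.Agent.Q287.BGW.Ex

set_option autoImplicit false

/-!
# Equality of the conditioned trees does not force equal supports

The definitions are in `Pool.Agent.Q287.BGW.Defs`: `Q287.BGW.bgw ζ i` is the law of the `ζ`-BGW
tree with root type `i`, `Q287.BGW.SameSupports` is condition (i) and
`Q287.BGW.SameConditioned Γ` is condition (ii) for the row matrix `Γ`.
-/

namespace Pool.Agent.Results.MP_e34f63_pr.SupportsDiffer

open MeasureTheory Q287.BGW

/-- **Theorem.** Condition (ii) does not imply condition (i) for single rows `Γ` with nonnegative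
integer entries. It fails for `K = 2` and `Γ = (1, 1)` (conditioning on the total number of
vertices), even for two irreducible families whose trees are almost surely finite. -/
theorem result :
    (¬ ∀ K : ℕ, 1 ≤ K → ∀ (Γ : Fin K → ℕ) (ζ ζ' : Fin K → PMF (List (Fin K))),
      SameConditioned Γ ζ ζ' → SameSupports ζ ζ') ∧
    ∃ ζ ζ' : Fin 2 → PMF (List (Fin 2)),
      Irreducible ζ ∧ Irreducible ζ' ∧
      (∀ i, ∀ᵐ T ∂bgw ζ i, {u | T u ≠ none}.Finite) ∧
      (∀ i, ∀ᵐ T ∂bgw ζ' i, {u | T u ≠ none}.Finite) ∧
      SameConditioned (fun _ => 1) ζ ζ' ∧ ¬ SameSupports ζ ζ' :=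
  ⟨fun h => not_sameSupports (h 2 (by norm_num) _ _ _ sameConditioned),
    zeta, half, irreducible_zeta, irreducible_half, ae_finite zeta zeta_supp zeta_one,
    ae_finite half half_supp rfl, sameConditioned, not_sameSupports⟩

end Pool.Agent.Results.MP_e34f63_pr.SupportsDiffer
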